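import Pool.Agent.H36.FO.Defs

/-!
# The derivative of `ρ` along the flow at a crossing
-/

set_option autoImplicit false
set_option linter.unusedSectionVars false

open scoped InnerProductSpace Topology ContDiff
open Set Filter

namespace Pool.Agent.H36.FO

open Pool.Agent.H91.GE Pool.Agent.H59.LV Pool.Agent.H59.ND Pool.Agent.H59.Zar

variable {E F : Type*} [NormedAddCommGroup E] [InnerProductSpace ℝ E] [FiniteDimensional ℝ E]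
  [NormedAddCommGroup F] [InnerProductSpace ℝ F] [FiniteDimensional ℝ F]
  {S : Set E} {A : E × E → E} {K K₂ : NNReal} {Φ : ℝ → E × E → E × E} {c : ℕ}
  {R : Set ((E × E) × (E × E))} {D : Set (E × E)} {ρ : E × E → ℝ}

theorem Pre.rho_X (hF : Pre S R D ρ) (h : GFlow F S A K K₂ Φ) (hR : RetRel Φ (UT S) c R)
    {w : E × E} (hw : w ∈ UT S) (hD : w ∈ D) (h0 : ρ w = 0) :
    fderiv ℝ ρ w (w.2, A w) = 1 := by
  obtain ⟨b, hb, hb0, hb1⟩ := hF.exists_vert hR h.sub hw hD h0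
  have hbZ : b ∈ ZT (UT S) w := hR.Y_le hw hb
  have hbw : ⟪w.2, b.2⟫_ℝ = 0 := inner_snd hbZ
  have hb2 : b.2 ≠ 0 := fun h2 => hb0 (Prod.ext hb1 h2)
  -- the Jacobi field
  have hΦ0 : Φ 0 w = w := h.flow.zero w
  have hΦ0' : fderiv ℝ (Φ 0) w b = b := by
    have e1 : Φ 0 = id := funext h.flow.zero
    rw [e1, fderiv_id]; rfl
  have hJ := hasDerivAt_jac h w b 0
  rw [hΦ0, hΦ0'] at hJ
  have hu : HasDerivAt (fun t => (fderiv ℝ (Φ t) w b).1) b.2 0 :=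
    (ContinuousLinearMap.fst ℝ E E).hasFDerivAt.comp_hasDerivAt (0 : ℝ) hJ
  have hv : HasDerivAt (fun t => Φ t w) (w.2, A w) 0 := by
    have e1 := hasDerivAt_flow h w 0
    rwa [hΦ0] at e1
  have hρd : HasFDerivAt ρ (fderiv ℝ ρ w) (Φ 0 w) := by
    rw [hΦ0]; exact hasFDerivAt_of_open hF.isOpen hF.smooth hD
  have hρt : HasDerivAt (fun t => ρ (Φ t w)) (fderiv ℝ ρ w (w.2, A w)) 0 :=
    hρd.comp_hasDerivAt (0 : ℝ) hv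
  -- difference quotients
  have t1 : Tendsto (fun t : ℝ => t⁻¹ • (fderiv ℝ (Φ t) w b).1) (𝓝[≠] 0) (𝓝 b.2) := by
    have e1 := hasDerivAt_iff_tendsto_slope_zero.1 hu
    refine e1.congr fun t => ?_
    rw [zero_add, hΦ0', hb1, sub_zero]
  have t2 : Tendsto (fun t : ℝ => t⁻¹ * ρ (Φ t w)) (𝓝[≠] 0) (𝓝 (fderiv ℝ ρ w (w.2, A w))) := by
    have e1 := hasDerivAt_iff_tendsto_slope_zero.1 hρt
    refine e1.congr fun t => ?_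
    rw [zero_add, hΦ0, h0, sub_zero, smul_eq_mul]
  have t3 : Tendsto (fun t : ℝ => (Φ t w).2) (𝓝[≠] 0) (𝓝 w.2) := by
    have e1 : ContinuousAt (fun t : ℝ => (Φ t w).2) 0 := hv.continuousAt.snd
    have e2 : Tendsto (fun t : ℝ => (Φ t w).2) (𝓝 0) (𝓝 (Φ 0 w).2) := e1
    rw [hΦ0] at e2
    exact e2.mono_left nhdsWithin_le_nhds
  have t4 : Tendsto (fun t : ℝ => (fderiv ℝ (Φ t) w b).2) (𝓝[≠] 0) (𝓝 b.2) := by
    have e1 : ContinuousAt (fun t : ℝ => (fderiv ℝ (Φ t) w b).2) 0 := by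
      have e3 : ContinuousAt (fun t : ℝ => fderiv ℝ (Φ t) w b) 0 := by
        exact (hasDerivAt_jac h w b 0).continuousAt
      exact e3.snd
    have e2 : Tendsto (fun t : ℝ => (fderiv ℝ (Φ t) w b).2) (𝓝 0) (𝓝 (fderiv ℝ (Φ 0) w b).2) := e1
    rw [hΦ0'] at e2
    exact e2.mono_left nhdsWithin_le_nhds
  have hLt : Tendsto (fun t : ℝ => ⟪t⁻¹ • (fderiv ℝ (Φ t) w b).1, t⁻¹ • (fderiv ℝ (Φ t) w b).1⟫_ℝ
      - ⟪t⁻¹ • (fderiv ℝ (Φ t) w b).1, (Φ t w).2⟫_ℝ * ⟪t⁻¹ • (fderiv ℝ (Φ t) w b).1, (Φ t w).2⟫_ℝ)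
      (𝓝[≠] 0) (𝓝 (⟪b.2, b.2⟫_ℝ - ⟪b.2, w.2⟫_ℝ * ⟪b.2, w.2⟫_ℝ)) :=
    (t1.inner t1).sub ((t1.inner t3).mul (t1.inner t3))
  have hRt : Tendsto (fun t : ℝ => (t⁻¹ * ρ (Φ t w)) *
      ⟪(fderiv ℝ (Φ t) w b).2, t⁻¹ • (fderiv ℝ (Φ t) w b).1⟫_ℝ)
      (𝓝[≠] 0) (𝓝 (fderiv ℝ ρ w (w.2, A w) * ⟪b.2, b.2⟫_ℝ)) :=
    t2.mul (t4.inner t1)
  have hev : ∀ᶠ t : ℝ in 𝓝[≠] 0, ⟪t⁻¹ • (fderiv ℝ (Φ t) w b).1, t⁻¹ • (fderiv ℝ (Φ t) w b).1⟫_ℝ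
      - ⟪t⁻¹ • (fderiv ℝ (Φ t) w b).1, (Φ t w).2⟫_ℝ * ⟪t⁻¹ • (fderiv ℝ (Φ t) w b).1, (Φ t w).2⟫_ℝ
      = (t⁻¹ * ρ (Φ t w)) * ⟪(fderiv ℝ (Φ t) w b).2, t⁻¹ • (fderiv ℝ (Φ t) w b).1⟫_ℝ := by
    have e1 : ∀ᶠ t : ℝ in 𝓝 (0 : ℝ), Φ t w ∈ D :=
      hv.continuousAt.preimage_mem_nhds (hF.isOpen.mem_nhds (by rw [hΦ0]; exact hD))
    filter_upwards [nhdsWithin_le_nhds e1] with t ht
    have hwt : Φ t w ∈ UT S := flow_mem_UT h hw t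
    have hkt : fderiv ℝ (Φ t) w b ∈ Y R (Φ t w) := (hR.flow_Y hw t).2 hb
    have e2 : ((Φ t w).1, (fderiv ℝ (Φ t) w b).1) ∈ TSet S :=
      (mem_TS h.sub (fst_mem_TSet hwt.1)).1 (fst_mem_TS hwt (hR.Y_le hwt hkt))
    have e3 := hF.eq _ hwt ht _ hkt _ e2
    rw [inner_sub_left, inner_smul_left] at e3
    simp only [inner_smul_left, inner_smul_right, conj_trivial] at e3 ⊢
    rw [real_inner_comm (fderiv ℝ (Φ t) w b).1 (Φ t w).2] at e3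
    linear_combination (t⁻¹ * t⁻¹) * e3
  have hfin := tendsto_nhds_unique (hLt.congr' hev) hRt
  have hbb : ⟪b.2, b.2⟫_ℝ ≠ 0 := inner_self_ne_zero.2 hb2
  rw [real_inner_comm w.2 b.2, hbw, mul_zero, sub_zero] at hfin
  have e5 : (fderiv ℝ ρ w (w.2, A w) - 1) * ⟪b.2, b.2⟫_ℝ = 0 := by linear_combination -hfin
  rcases mul_eq_zero.1 e5 with e6 | e6
  · linarith
  · exact absurd e6 hbb

end Pool.Agent.H36.FO
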