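import Pool.Agent.H59.Zar.Inst

/-!
# Crossings: the structure near a crossing (output of sections 5.1 and 5.2)
-/

set_option autoImplicit false
set_option linter.unusedSectionVars false

open scoped InnerProductSpace Topology ContDiff
open Set Filter

namespace Pool.Agent.H36.FO

open Pool.Agent.H91.GE Pool.Agent.H59.LV Pool.Agent.H59.ND Pool.Agent.H59.Zar

variable {E F : Type*} [NormedAddCommGroup E] [InnerProductSpace ℝ E] [FiniteDimensional ℝ E]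
  [NormedAddCommGroup F] [InnerProductSpace ℝ F] [FiniteDimensional ℝ F]
  {S : Set E} {A : E × E → E} {K K₂ : NNReal} {Φ : ℝ → E × E → E × E} {c : ℕ}
  {R : Set ((E × E) × (E × E))} {D : Set (E × E)} {ρ : E × E → ℝ}

/-- On the open set `D` of unit vectors, `Y` is spanned by the geodesic field and by vectors
`(ρ η, η)` (horizontal and vertical parts), with a smooth function `ρ`. -/
structure Pre (S : Set E) (R : Set ((E × E) × (E × E))) (D : Set (E × E)) (ρ : E × E → ℝ) :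
    Prop where
  isOpen : IsOpen D
  smooth : ContDiffOn ℝ ∞ ρ D
  eq : ∀ w ∈ UT S, w ∈ D → ∀ k ∈ Y R w, ∀ e, (w.1, e) ∈ TSet S →
    ⟪k.1 - ⟪k.1, w.2⟫_ℝ • w.2, e⟫_ℝ = ρ w * ⟪k.2, e⟫_ℝ
  two : ∀ w ∈ UT S, w ∈ D → 2 ≤ Module.finrank ℝ (Y R w)

/-- Moreover, at the points where `ρ = 0`, its derivative vanishes on the vertical part of `Y`. -/
structure Foc (S : Set E) (R : Set ((E × E) × (E × E))) (D : Set (E × E)) (ρ : E × E → ℝ) :
    Prop extends Pre S R D ρ where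
  flat : ∀ w ∈ UT S, w ∈ D → ρ w = 0 → ∀ b ∈ Y R w, b.1 = 0 → fderiv ℝ ρ w b = 0

/-- A linear functional has a nonzero zero in a subspace of dimension at least `2`. -/
theorem exists_ker {V : Type*} [NormedAddCommGroup V] [NormedSpace ℝ V] [FiniteDimensional ℝ V]
    {L : Submodule ℝ V} (h : 2 ≤ Module.finrank ℝ L) (φ : V →ₗ[ℝ] ℝ) :
    ∃ k ∈ L, k ≠ 0 ∧ φ k = 0 := by
  have h1 : LinearMap.ker (φ ∘ₗ L.subtype) ≠ ⊥ :=
    LinearMap.ker_ne_bot_of_finrank_lt (by rw [Module.finrank_self]; omega)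
  obtain ⟨x, hx, hx0⟩ := (Submodule.ne_bot_iff _).1 h1
  exact ⟨x, x.2, fun h2 => hx0 (Subtype.ext h2), hx⟩

theorem Pre.vert (hF : Pre S R D ρ) (hR : RetRel Φ (UT S) c R) (hsub : IsSub F S) {w : E × E}
    (hw : w ∈ UT S) (hD : w ∈ D) (h0 : ρ w = 0) {k : E × E} (hk : k ∈ Y R w) :
    k.1 = ⟪k.1, w.2⟫_ℝ • w.2 := by
  have h1 : k.1 ∈ ZT S w.1 := fst_mem_TS hw (hR.Y_le hw hk)
  have h2 : k.1 - ⟪k.1, w.2⟫_ℝ • w.2 ∈ ZT S w.1 :=
    Submodule.sub_mem _ h1 (Submodule.smul_mem _ _ (snd_mem_TS hsub hw))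
  have h3 := hF.eq w hw hD k hk _ ((mem_TS hsub (fst_mem_TSet hw.1)).1 h2)
  rw [h0, zero_mul] at h3
  exact sub_eq_zero.1 (inner_self_eq_zero.1 h3)

theorem Pre.exists_vert (hF : Pre S R D ρ) (hR : RetRel Φ (UT S) c R) (hsub : IsSub F S)
    {w : E × E} (hw : w ∈ UT S) (hD : w ∈ D) (h0 : ρ w = 0) :
    ∃ b ∈ Y R w, b ≠ 0 ∧ b.1 = 0 := by
  obtain ⟨b, hb, hb0, hbw⟩ := exists_ker (hF.two w hw hD)
    (((innerSL ℝ w.2).toLinearMap) ∘ₗ (LinearMap.fst ℝ E E))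
  have h1 : ⟪w.2, b.1⟫_ℝ = 0 := hbw
  refine ⟨b, hb, hb0, ?_⟩
  rw [hF.vert hR hsub hw hD h0 hb, real_inner_comm, h1, zero_smul]

end Pool.Agent.H36.FO
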