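import Pool.Agent.H36.FO.RhoX

/-!
# The focal map
-/

set_option autoImplicit false
set_option linter.unusedSectionVars false

open scoped InnerProductSpace Topology ContDiff
open Set Filter

namespace Pool.Agent.H36.FO

open Pool.Agent.H91.GE Pool.Agent.H59.LV Pool.Agent.H59.ND Pool.Agent.H59.Zar

variable {E F : Type*} [NormedAddCommGroup E] [InnerProductSpace ℝ E] [FiniteDimensional ℝ E]
  [NormedAddCommGroup F] [InnerProductSpace ℝ F] [FiniteDimensional ℝ F]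
  {S : Set E} {A : E × E → E} {K K₂ : NNReal} {Φ : ℝ → E × E → E × E} {c : ℕ}
  {R : Set ((E × E) × (E × E))} {D : Set (E × E)} {ρ : E × E → ℝ}

/-- The derivative of `w ↦ Φ (s w) w`. -/
theorem hasFDerivAt_hit (h : GFlow F S A K K₂ Φ) {s : E × E → ℝ} {s' : E × E →L[ℝ] ℝ} {w : E × E}
    (hs : HasFDerivAt s s' w) :
    HasFDerivAt (fun w => Φ (s w) w) (s'.smulRight ((Φ (s w) w).2, A (Φ (s w) w))
      + fderiv ℝ (Φ (s w)) w) w := by
  have h1 := h.flow.hasFDerivAt h.vf (s w) w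
  have h2 : HasFDerivAt (fun w : E × E => (s w, w)) (s'.prod (ContinuousLinearMap.id ℝ (E × E))) w :=
    hs.prodMk (hasFDerivAt_id w)
  have h3 := HasFDerivAt.comp w (g := fun x : ℝ × (E × E) => Φ x.1 x.2)
    (f := fun w : E × E => (s w, w)) h1 h2
  refine h3.congr_fderiv ?_
  ext a <;> simp [XF]

/-- **The focal map** `w ↦ (Φ (s w) w).1` is constant in the directions of `Y`. -/
theorem Foc.exists_focal (hF : Foc S R D ρ) (h : GFlow F S A K K₂ Φ) (hR : RetRel Φ (UT S) c R)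
    (hX : ∀ w ∈ UT S, (w.2, A w) ∈ Y R w)
    {w₀ : E × E} (hw₀ : w₀ ∈ UT S) (hD : w₀ ∈ D) (h0 : ρ w₀ = 0) :
    ∃ (O : Set (E × E)) (s : E × E → ℝ), IsOpen O ∧ w₀ ∈ O ∧ ContDiffOn ℝ ∞ s O ∧
      (∀ w ∈ O, |s w| < 1 / 2) ∧
      ∀ w ∈ UT S, w ∈ O → ∀ k ∈ Y R w, (fderiv ℝ (fun w => Φ (s w) w) w k).1 = 0 := by
  have hΦc : ContDiff ℝ ∞ (fun x : ℝ × (E × E) => Φ x.1 x.2) := h.contDiff
  have hΨc : ContDiff ℝ ∞ (fun x : (E × E) × ℝ => Φ x.2 x.1) :=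
    hΦc.comp (contDiff_snd.prodMk contDiff_fst)
  set D' : Set ((E × E) × ℝ) := {x | Φ x.2 x.1 ∈ D} with hD'
  have hD'o : IsOpen D' := hF.isOpen.preimage hΨc.continuous
  have hHs : ContDiffOn ℝ ∞ (fun x : (E × E) × ℝ => ρ (Φ x.2 x.1)) D' :=
    hF.smooth.comp hΨc.contDiffOn fun x hx => hx
  have hΦ0 : Φ 0 w₀ = w₀ := h.flow.zero w₀
  have hmem : (w₀, (0 : ℝ)) ∈ D' := by
    show Φ 0 w₀ ∈ D
    rw [hΦ0]; exact hD
  have hd : ∀ b : ℝ, fderiv ℝ (fun x : (E × E) × ℝ => ρ (Φ x.2 x.1)) (w₀, 0) (0, b) = b := by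
    intro b
    have e1 := hasFDerivAt_of_open hD'o hHs hmem
    have e2 : HasDerivAt (fun t : ℝ => ((w₀, t * b) : (E × E) × ℝ)) (0, b) 0 := by
      refine (hasDerivAt_const (0 : ℝ) w₀).prodMk ?_
      simpa using (hasDerivAt_id (0 : ℝ)).mul_const b
    have e3 : HasDerivAt (fun t : ℝ => ρ (Φ (t * b) w₀))
        (fderiv ℝ (fun x : (E × E) × ℝ => ρ (Φ x.2 x.1)) (w₀, 0) (0, b)) 0 := by
      refine HasFDerivAt.comp_hasDerivAt (l := fun x : (E × E) × ℝ => ρ (Φ x.2 x.1))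
        (f := fun t : ℝ => ((w₀, t * b) : (E × E) × ℝ)) (0 : ℝ) ?_ e2
      simpa using e1
    have e4 : HasDerivAt (fun t : ℝ => Φ (t * b) w₀) (b • (w₀.2, A w₀)) 0 := by
      have g1 : HasDerivAt (fun t => Φ t w₀) (w₀.2, A w₀) ((0 : ℝ) * b) := by
        have g3 := hasDerivAt_flow h w₀ 0
        rw [hΦ0] at g3
        rwa [zero_mul]
      have g2 : HasDerivAt (fun t : ℝ => t * b) b 0 := by
        simpa using (hasDerivAt_id (0 : ℝ)).mul_const b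
      exact HasDerivAt.scomp (g₁ := fun t => Φ t w₀) (h := fun t : ℝ => t * b) (0 : ℝ) g1 g2
    have e5 : HasFDerivAt ρ (fderiv ℝ ρ w₀) (Φ ((0 : ℝ) * b) w₀) := by
      rw [zero_mul, hΦ0]; exact hasFDerivAt_of_open hF.isOpen hF.smooth hD
    have e6 := e3.unique (e5.comp_hasDerivAt (0 : ℝ) e4)
    rw [e6, map_smul, hF.rho_X h hR hw₀ hD h0, smul_eq_mul, mul_one]
  have hbij : Function.Bijective fun b : ℝ =>
      fderiv ℝ (fun x : (E × E) × ℝ => ρ (Φ x.2 x.1)) (w₀, 0) (0, b) := by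
    have e1 : (fun b : ℝ => fderiv ℝ (fun x : (E × E) × ℝ => ρ (Φ x.2 x.1)) (w₀, 0) (0, b)) = id :=
      funext hd
    rw [e1]; exact Function.bijective_id
  obtain ⟨O₁, V, s, hO₁, hw₀O, hV, h0V, hOV, hs, hs0, hs1⟩ := exists_implicit hD'o hHs hmem hbij
  have hsc : ContinuousOn s O₁ := hs.continuousOn
  set O : Set (E × E) := O₁ ∩ s ⁻¹' (Ioo (-(1 / 2)) (1 / 2)) with hO
  have hOo : IsOpen O := hsc.isOpen_inter_preimage hO₁ isOpen_Ioo
  refine ⟨O, s, hOo, ⟨hw₀O, ?_⟩, hs.mono inter_subset_left, ?_, ?_⟩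
  · show s w₀ ∈ Ioo (-(1 / 2 : ℝ)) (1 / 2)
    rw [hs0]; constructor <;> norm_num
  · intro w hw
    exact abs_lt.2 hw.2
  · intro w hwU hwO k hk
    have hwO₁ : w ∈ O₁ := hwO.1
    have hsd : HasFDerivAt s (fderiv ℝ s w) w := hasFDerivAt_of_open hO₁ hs hwO₁
    have hΨd := hasFDerivAt_hit h hsd
    set w' := Φ (s w) w with hw'
    have hw'U : w' ∈ UT S := flow_mem_UT h hwU _
    have hw'D : w' ∈ D := by
      have e1 : (w, s w) ∈ D' := hOV (Set.mk_mem_prod hwO₁ (hs1 w hwO₁).1)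
      exact e1
    have hρ0 : ∀ v ∈ O₁, ρ (Φ (s v) v) = 0 := by
      intro v hv
      have e1 : ρ (Φ (s v) v) = ρ (Φ 0 w₀) := (hs1 v hv).2.1
      rw [e1, hΦ0, h0]
    set b : E × E := fderiv ℝ (fun w => Φ (s w) w) w k with hb
    have hbe : b = (fderiv ℝ s w k) • (w'.2, A w') + fderiv ℝ (Φ (s w)) w k := by
      rw [hb, hΨd.fderiv]; rfl
    have hbY : b ∈ Y R w' := by
      rw [hbe]
      exact Submodule.add_mem _ (Submodule.smul_mem _ _ (hX w' hw'U)) ((hR.flow_Y hwU _).2 hk)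
    -- `ρ` is constant on the hits
    have hρb : fderiv ℝ ρ w' b = 0 := by
      have e1 : HasFDerivAt ρ (fderiv ℝ ρ w') (Φ (s w) w) :=
        hasFDerivAt_of_open hF.isOpen hF.smooth hw'D
      have e2 : HasFDerivAt (fun v => ρ (Φ (s v) v)) _ w :=
        HasFDerivAt.comp w (g := ρ) (f := fun v => Φ (s v) v) e1 hΨd
      have e3 : (fun v => ρ (Φ (s v) v)) =ᶠ[𝓝 w] fun _ => 0 := by
        filter_upwards [hO₁.mem_nhds hwO₁] with v hv
        exact hρ0 v hv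
      have e4 := e2.unique ((hasFDerivAt_const (0 : ℝ) w).congr_of_eventuallyEq e3)
      have e5 := congrArg (fun L : (E × E) →L[ℝ] ℝ => L k) e4
      rw [hbe]
      exact e5
    have hv := hF.vert hR h.sub hw'U hw'D (hρ0 w hwO₁) hbY
    set α := ⟪b.1, w'.2⟫_ℝ with hα
    have hb' : b - α • (w'.2, A w') ∈ Y R w' :=
      Submodule.sub_mem _ hbY (Submodule.smul_mem _ _ (hX w' hw'U))
    have hb'1 : (b - α • (w'.2, A w')).1 = 0 := by
      show b.1 - α • w'.2 = 0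
      exact sub_eq_zero.2 hv
    have hfl := hF.flat w' hw'U hw'D (hρ0 w hwO₁) _ hb' hb'1
    rw [map_sub, map_smul, hρb, hF.rho_X h hR hw'U hw'D (hρ0 w hwO₁), smul_eq_mul, mul_one,
      zero_sub, neg_eq_zero] at hfl
    rw [hv, hfl, zero_smul]

end Pool.Agent.H36.FO
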