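import Pool.Agent.H59.Zar.UT
import Pool.Agent.H77.ND.Fiber

/-!
# Patches of the unit tangent bundle; a curve in a fibre of a map on a submanifold
-/

set_option autoImplicit false
set_option linter.unusedSectionVars false

open scoped InnerProductSpace Topology ContDiff
open Set Filter

namespace Pool.Agent.H36.FO

open Pool.Agent.H91.GE Pool.Agent.H59.LV Pool.Agent.H59.ND Pool.Agent.H59.Zar

section abstr

variable {G W M : Type*} [NormedAddCommGroup G] [NormedSpace ℝ G] [FiniteDimensional ℝ G]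
  [NormedAddCommGroup W] [NormedSpace ℝ W] [FiniteDimensional ℝ W]
  [NormedAddCommGroup M] [NormedSpace ℝ M] [FiniteDimensional ℝ M]

/-- The zero set of a submersion has patches. -/
theorem exists_patch_sub {T D : Set G} {g : G → W} (hD : IsOpen D) (hg : ContDiffOn ℝ ∞ g D)
    (hT : ∀ q ∈ D, q ∈ T ↔ g q = 0) {p : G} (hp : p ∈ D)
    (hs : Function.Surjective (fderiv ℝ g p)) :
    ∃ (M : Submodule ℝ G) (O : Set M) (Ψ : M → G) (κ : G →L[ℝ] M) (V : Set G),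
      Patch T O Ψ κ V ∧ p ∈ V ∧ V ⊆ D := by
  set L : G →L[ℝ] W := fderiv ℝ g p with hL
  set M : Submodule ℝ G := LinearMap.ker L.toLinearMap with hM
  obtain ⟨π₀, hπ₀⟩ := M.subtype.exists_leftInverse_of_injective (Submodule.ker_subtype M)
  let P : G →L[ℝ] M := LinearMap.toContinuousLinearMap π₀
  have hP : ∀ r : M, P (r : G) = r := fun r => congrArg (fun T : M →ₗ[ℝ] M => T r) hπ₀
  have hPk : ∀ v : G, L v = 0 → P v = 0 → v = 0 := by
    intro v hv hPv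
    have h1 : v ∈ M := hv
    have h2 := hP ⟨v, h1⟩
    have h3 : P v = ⟨v, h1⟩ := h2
    rw [h3] at hPv
    exact congrArg Subtype.val hPv
  let H₀ : G → W × M := fun q => (g q, P q)
  have hGc : ContDiffOn ℝ ∞ H₀ D := hg.prodMk P.contDiff.contDiffOn
  have hGd : fderiv ℝ H₀ p = L.prod P :=
    ((hasFDerivAt_of_open hD hg hp).prodMk P.hasFDerivAt).fderiv
  have hinj : Function.Injective (L.prod P : G →L[ℝ] W × M) := by
    refine (injective_iff_map_eq_zero _).2 fun v hv => ?_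
    exact hPk v (congrArg Prod.fst hv) (congrArg Prod.snd hv)
  have hbij : Function.Bijective (fderiv ℝ H₀ p) := by
    rw [hGd]
    refine ⟨hinj, ?_⟩
    have h1 : Module.finrank ℝ G = Module.finrank ℝ (W × M) := by
      rw [Module.finrank_prod, finrank_ker hs]
    exact (LinearMap.injective_iff_surjective_of_finrank_eq_finrank
      (f := (L.prod P).toLinearMap) h1).1 hinj
  obtain ⟨H, hHc, hpH, hHU, hHs, -⟩ := exists_inv hD hGc hp hbij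
  let ι : M → W × M := fun x => (0, x)
  have hι : ContDiff ℝ ∞ ι := contDiff_const.prodMk contDiff_id
  have hval : ∀ x, ι x ∈ H.target → g (H.symm (ι x)) = 0 ∧ P (H.symm (ι x)) = x := by
    intro x hx
    have h1 := H.right_inv hx
    rw [hHc] at h1
    exact ⟨congrArg Prod.fst h1, congrArg Prod.snd h1⟩
  refine ⟨M, ι ⁻¹' H.target, fun x => H.symm (ι x), P, H.source,
    ⟨H.open_target.preimage hι.continuous, hHs.comp hι.contDiffOn fun x hx => hx, ?_, ?_, ?_,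
      ?_, ?_⟩, hpH, hHU⟩
  · intro x hx
    exact (hT _ (hHU (H.map_target hx))).2 (hval x hx).1
  · intro x hx; exact (hval x hx).2
  · exact H.open_source
  · intro x hx; exact H.map_target hx
  · intro q hqS hq
    have h1 : H q = ι (P q) := by
      rw [hHc]
      show (g q, P q) = (0, P q)
      rw [(hT q (hHU hq)).1 hqS]
    refine ⟨?_, ?_⟩
    · show ι (P q) ∈ H.target
      rw [← h1]; exact H.map_source hq
    · show H.symm (ι (P q)) = q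
      rw [← h1]; exact H.left_inv hq

/-- Zariski tangent vectors in a patch. -/
theorem ZT_patch {T : Set G} {O : Set M} {Ψ : M → G} {κ : G →L[ℝ] M} {V : Set G}
    (hp : Patch T O Ψ κ V) {w : G} (hw : w ∈ T) (hV : w ∈ V) {a : G} (ha : a ∈ ZT T w) :
    fderiv ℝ Ψ (κ w) (κ a) = a := by
  obtain ⟨hO, hΨ⟩ := hp.right w hw hV
  have hU : IsOpen (V ∩ κ ⁻¹' O) := hp.V_open.inter (hp.isOpen.preimage κ.continuous)
  have h1 : ContDiffOn ℝ ∞ (fun q => Ψ (κ q) - q) (V ∩ κ ⁻¹' O) :=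
    (hp.smooth.comp κ.contDiff.contDiffOn fun q hq => hq.2).sub contDiffOn_id
  have h2 := fderiv_eq_zero' (hU.mem_nhds ⟨hV, hO⟩) h1 (fun q hq hqU => by
    rw [(hp.right q hq hqU.1).2, sub_self]) ha
  have h3 : HasFDerivAt (fun q => Ψ (κ q)) (fderiv ℝ Ψ (κ w) ∘L κ) w :=
    (hp.hasFDerivAt hO).comp w κ.hasFDerivAt
  have h4 : HasFDerivAt (fun q => Ψ (κ q) - q)
    (fderiv ℝ Ψ (κ w) ∘L κ - ContinuousLinearMap.id ℝ G) w := h3.sub (hasFDerivAt_id w)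
  rw [h4.fderiv] at h2
  exact sub_eq_zero.1 h2

/-- The fibre curve lemma on a subset with a patch. -/
theorem exists_fiber_curve_patch {T : Set G} {O : Set M} {Ψ : M → G} {κ : G →L[ℝ] M} {V : Set G}
    (hp : Patch T O Ψ κ V) {D : Set G} (hD : IsOpen D) {w₁ : G} (hw₁ : w₁ ∈ T) (hw₁V : w₁ ∈ V)
    (hw₁D : w₁ ∈ D) {f : G → W} (hf : ContDiffOn ℝ ∞ f D)
    (hk : ∀ w ∈ T, w ∈ D → ∃ k ∈ ZT T w, k ≠ 0 ∧ fderiv ℝ f w k = 0) :
    ∃ w₂ ∈ T, w₂ ∈ D ∧ ∃ (c : ℝ → G) (k : G), k ≠ 0 ∧ c 0 = w₂ ∧ HasDerivAt c k 0 ∧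
      ∀ᶠ τ in 𝓝 (0 : ℝ), c τ ∈ T ∧ c τ ∈ D ∧ f (c τ) = f w₂ := by
  have hΨc : ContinuousOn Ψ O := hp.smooth.continuousOn
  have hUo : IsOpen (O ∩ Ψ ⁻¹' D) := hΨc.isOpen_inter_preimage hp.isOpen hD
  obtain ⟨hκO, hκΨ⟩ := hp.right w₁ hw₁ hw₁V
  have hne : (O ∩ Ψ ⁻¹' D).Nonempty := ⟨κ w₁, hκO, by
    show Ψ (κ w₁) ∈ D
    rw [hκΨ]; exact hw₁D⟩
  have hfs : ContDiffOn ℝ ∞ (fun x => f (Ψ x)) (O ∩ Ψ ⁻¹' D) :=
    hf.comp (hp.smooth.mono inter_subset_left) fun x hx => hx.2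
  have hfd : ∀ x ∈ O ∩ Ψ ⁻¹' D, HasFDerivAt (fun x => f (Ψ x)) (fderiv ℝ f (Ψ x) ∘L fderiv ℝ Ψ x) x :=
    fun x hx => (hasFDerivAt_of_open hD hf hx.2).comp x (hp.hasFDerivAt hx.1)
  obtain ⟨q₁, hq₁, c, k, hk0, hc0, hcd, hce⟩ := Pool.Agent.H77.ND.exists_fiber_curve hUo hne hfs (by
    intro q hq
    obtain ⟨k, hkT, hk0, hkf⟩ := hk (Ψ q) (hp.mem q hq.1) hq.2
    have e1 := ZT_patch hp (hp.mem q hq.1) (hp.maps q hq.1) hkT
    rw [hp.left q hq.1] at e1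
    refine ⟨κ k, fun h0 => hk0 ?_, ?_⟩
    · rw [← e1, h0, map_zero]
    · rw [(hfd q hq).fderiv]
      show fderiv ℝ f (Ψ q) (fderiv ℝ Ψ q (κ k)) = 0
      rw [e1, hkf])
  refine ⟨Ψ q₁, hp.mem q₁ hq₁.1, hq₁.2, fun τ => Ψ (c τ), fderiv ℝ Ψ q₁ k, ?_, ?_, ?_, ?_⟩
  · intro h0
    have e1 := hp.κ_fderiv hq₁.1 k
    rw [h0, map_zero] at e1
    exact hk0 e1.symm
  · show Ψ (c 0) = Ψ q₁
    rw [hc0]
  · have e1 : HasFDerivAt Ψ (fderiv ℝ Ψ q₁) (c 0) := by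
      rw [hc0]; exact hp.hasFDerivAt hq₁.1
    exact e1.comp_hasDerivAt (0 : ℝ) hcd
  · filter_upwards [hce] with τ hτ
    exact ⟨hp.mem _ hτ.1.1, hτ.1.2, hτ.2.2⟩

end abstr

variable {E F : Type*} [NormedAddCommGroup E] [InnerProductSpace ℝ E] [FiniteDimensional ℝ E]
  [NormedAddCommGroup F] [InnerProductSpace ℝ F] [FiniteDimensional ℝ F]
  {S : Set E}

/-- Patches of the unit tangent bundle. -/
theorem exists_patch_UT (hsub : IsSub F S) {w : E × E} (hwU : w ∈ UT S) :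
    ∃ (M : Submodule ℝ (E × E)) (O : Set M) (Ψ : M → E × E) (κ : E × E →L[ℝ] M) (V : Set (E × E)),
      Patch (UT S) O Ψ κ V ∧ w ∈ V := by
  obtain ⟨U, hw, f, hf⟩ := hsub w.1 (fst_mem_TSet hwU.1)
  obtain ⟨M, O, Ψ, κ, V, h1, h2, -⟩ := exists_patch_sub (T := UT S)
    (D := {w : E × E | w.1 ∈ U}) (hf.isOpen.preimage continuous_fst)
    (gU_smooth hf) (fun q hq => mem_UT_iff hf hq) hw (gU_surj hf hwU hw)
  exact ⟨M, O, Ψ, κ, V, h1, h2⟩

/-- The fibre curve lemma on the unit tangent bundle. -/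
theorem exists_fiber_curve_UT {W : Type*} [NormedAddCommGroup W] [NormedSpace ℝ W]
    [FiniteDimensional ℝ W] (hsub : IsSub F S) {D : Set (E × E)} (hD : IsOpen D) {w₁ : E × E}
    (hw₁ : w₁ ∈ UT S) (hw₁D : w₁ ∈ D) {f : E × E → W} (hf : ContDiffOn ℝ ∞ f D)
    (hk : ∀ w ∈ UT S, w ∈ D → ∃ k ∈ ZT (UT S) w, k ≠ 0 ∧ fderiv ℝ f w k = 0) :
    ∃ w₂ ∈ UT S, w₂ ∈ D ∧ ∃ (c : ℝ → E × E) (k : E × E), k ≠ 0 ∧ c 0 = w₂ ∧ HasDerivAt c k 0 ∧
      ∀ᶠ τ in 𝓝 (0 : ℝ), c τ ∈ UT S ∧ c τ ∈ D ∧ f (c τ) = f w₂ := by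
  obtain ⟨M, O, Ψ, κ, V, h1, h2⟩ := exists_patch_UT hsub hw₁
  exact exists_fiber_curve_patch h1 hD hw₁ h2 hw₁D hf hk

end Pool.Agent.H36.FO
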