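import Pool.Agent.H36.FO.Focal
import Pool.Agent.H36.FO.PatchUT
import Pool.Agent.H91.GS.Loops

/-!
# Focusing: no crossings (section 5.3)
-/

set_option autoImplicit false
set_option linter.unusedSectionVars false

open scoped InnerProductSpace Topology ContDiff
open Set Filter

namespace Pool.Agent.H36.FO

open Pool.Agent.H91.GE Pool.Agent.H59.LV Pool.Agent.H59.ND Pool.Agent.H59.Zar

variable {E F : Type*} [NormedAddCommGroup E] [InnerProductSpace ℝ E] [FiniteDimensional ℝ E]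
  [NormedAddCommGroup F] [InnerProductSpace ℝ F] [FiniteDimensional ℝ F]
  {S : Set E} {A : E × E → E} {K K₂ : NNReal} {Φ : ℝ → E × E → E × E} {c : ℕ}
  {R : Set ((E × E) × (E × E))} {D : Set (E × E)} {ρ : E × E → ℝ}

/-- A curve of unit vectors whose hits `Φ (s w) w` and `Φ (s' w) (Φ T w)` have constant base points
is a piece of an orbit. -/
theorem deriv_of_const (h : GFlow F S A K K₂ Φ) (hsec : Secure S) {O : Set (E × E)}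
    {s : E × E → ℝ} (hO : IsOpen O) (hs : ContDiffOn ℝ ∞ s O) (hsb : ∀ w ∈ O, |s w| < 1 / 2)
    {T : ℝ} (hT : 2 < T) {w₂ k : E × E} (hw₂ : w₂ ∈ UT S) (hw₂O : w₂ ∈ O) {γ : ℝ → E × E}
    (hγ0 : γ 0 = w₂) (hγ : HasDerivAt γ k 0)
    (hev : ∀ᶠ τ in 𝓝 (0 : ℝ), γ τ ∈ UT S ∧ γ τ ∈ O ∧ Φ T (γ τ) ∈ O ∧
      (Φ (s (γ τ)) (γ τ)).1 = (Φ (s w₂) w₂).1 ∧
      (Φ (s (Φ T (γ τ))) (Φ T (γ τ))).1 = (Φ (s (Φ T w₂)) (Φ T w₂)).1) :
    ∃ σ : ℝ, k = σ • (w₂.2, A w₂) := by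
  have hΦc : ContDiff ℝ ∞ (fun x : ℝ × (E × E) => Φ x.1 x.2) := h.contDiff
  have hγc : ContinuousAt γ 0 := hγ.continuousAt
  have hsd : HasFDerivAt s (fderiv ℝ s w₂) w₂ := hasFDerivAt_of_open hO hs hw₂O
  have hsγ : HasDerivAt (fun τ => s (γ τ)) (fderiv ℝ s w₂ k) 0 := by
    have e1 : HasFDerivAt s (fderiv ℝ s w₂) (γ 0) := by rw [hγ0]; exact hsd
    exact e1.comp_hasDerivAt (0 : ℝ) hγ
  set p := Φ (s w₂) w₂ with hp
  have hpU : p ∈ UT S := flow_mem_UT h hw₂ _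
  set q' := (Φ (s (Φ T w₂)) (Φ T w₂)).1 with hq'
  have hq'S : q' ∈ S := fst_mem_TSet (flow_mem_UT h (flow_mem_UT h hw₂ _) _).1
  have hfin := fin_dir h hsec (fst_mem_TSet hpU.1) hq'S (T + 1)
  set V := {v : E | (p.1, v) ∈ TSet S ∧ ‖v‖ = 1 ∧
    ∃ t, 0 < |t| ∧ |t| ≤ T + 1 ∧ (Φ t (p.1, v)).1 = q'} with hV
  -- the directions of the hits
  have hcont : ContinuousAt (fun τ => Φ (s (γ τ)) (γ τ)) 0 := by
    have e1 : ContinuousAt (fun τ => (s (γ τ), γ τ)) 0 := hsγ.continuousAt.prodMk hγc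
    exact ContinuousAt.comp (g := fun x : ℝ × (E × E) => Φ x.1 x.2)
      (f := fun τ => (s (γ τ), γ τ)) hΦc.continuous.continuousAt e1
  have h1 : ∀ᶠ τ in 𝓝 (0 : ℝ), (Φ (s (γ τ)) (γ τ)).2 ∈ V := by
    filter_upwards [hev] with τ hτ
    obtain ⟨g1, g2, g3, g4, g5⟩ := hτ
    have hmem : Φ (s (γ τ)) (γ τ) ∈ UT S := flow_mem_UT h g1 _
    have he : (p.1, (Φ (s (γ τ)) (γ τ)).2) = Φ (s (γ τ)) (γ τ) := Prod.ext g4.symm rfl
    refine ⟨?_, hmem.2, T + s (Φ T (γ τ)) - s (γ τ), ?_, ?_, ?_⟩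
    · rw [he]; exact hmem.1
    · have b1 := abs_lt.1 (hsb _ g2)
      have b2 := abs_lt.1 (hsb _ g3)
      refine abs_pos.2 fun h0 => ?_
      linarith [b1.1, b1.2, b2.1, b2.2]
    · have b1 := abs_lt.1 (hsb _ g2)
      have b2 := abs_lt.1 (hsb _ g3)
      exact abs_le.2 ⟨by linarith [b1.1, b1.2, b2.1, b2.2], by linarith [b1.1, b1.2, b2.1, b2.2]⟩
    · rw [he, ← h.flow.add h.vf]
      have e1 : T + s (Φ T (γ τ)) - s (γ τ) + s (γ τ) = s (Φ T (γ τ)) + T := by ring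
      rw [e1, h.flow.add h.vf]
      exact g5
  have h2 : ∀ᶠ τ in 𝓝 (0 : ℝ), (Φ (s (γ τ)) (γ τ)).2 = p.2 := by
    have e1 : (V \ {p.2})ᶜ ∈ 𝓝 (Φ (s (γ 0)) (γ 0)).2 := by
      refine (hfin.subset sdiff_subset).isClosed.isOpen_compl.mem_nhds ?_
      rw [hγ0]
      exact fun g => g.2 rfl
    filter_upwards [h1, hcont.snd.preimage_mem_nhds e1] with τ g1 g2
    by_contra hne
    exact g2 ⟨g1, hne⟩
  have h3 : ∀ᶠ τ in 𝓝 (0 : ℝ), γ τ = Φ (-(s (γ τ))) p := by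
    filter_upwards [h2, hev] with τ g1 g2
    have e1 : Φ (s (γ τ)) (γ τ) = p := Prod.ext g2.2.2.2.1 g1
    rw [← e1, ← h.flow.add h.vf, neg_add_cancel, h.flow.zero]
  have h4 : HasDerivAt (fun τ => Φ (-(s (γ τ))) p) ((-(fderiv ℝ s w₂ k)) • (w₂.2, A w₂)) 0 := by
    have e1 : HasDerivAt (fun t => Φ t p) (w₂.2, A w₂) (-(s (γ 0))) := by
      have g1 := hasDerivAt_flow h p (-(s (γ 0)))
      have g2 : Φ (-(s (γ 0))) p = w₂ := by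
        rw [hγ0, hp, ← h.flow.add h.vf, neg_add_cancel, h.flow.zero]
      rwa [g2] at g1
    exact HasDerivAt.scomp (g₁ := fun t => Φ t p) (h := fun τ => -(s (γ τ))) (0 : ℝ) e1 hsγ.neg
  exact ⟨_, hγ.unique (h4.congr_of_eventuallyEq h3)⟩

/-- **No crossings.** -/
theorem Foc.no_crossing (hF : Foc S R D ρ) (h : GFlow F S A K K₂ Φ)
    (hdim : Module.finrank ℝ F ≤ Module.finrank ℝ E) (hsec : Secure S)
    (hR : RetRel Φ (UT S) c R) {w₀ : E × E} (hw₀ : w₀ ∈ UT S) (hD : w₀ ∈ D) : ρ w₀ ≠ 0 := by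
  intro h0
  have hΦc : ContDiff ℝ ∞ (fun x : ℝ × (E × E) => Φ x.1 x.2) := h.contDiff
  have hX : ∀ w ∈ UT S, (w.2, A w) ∈ Y R w := by
    intro w hw
    refine hR.X_mem hw ?_
    have e1 := hasDerivAt_flow h w 0
    rwa [h.flow.zero] at e1
  obtain ⟨O, s, hO, hw₀O, hs, hsb, hfoc⟩ := hF.exists_focal h hR hX hw₀ hD h0
  have hnw := nonwandering_speed h hdim hw₀.1 (by rw [hw₀.2]; norm_num)
    (fun h1 => by have := hw₀.2; rw [h1, norm_zero] at this; norm_num at this)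
    ((hO.inter hF.isOpen).mem_nhds ⟨hw₀O, hD⟩) 2
  obtain ⟨w₁, ⟨hw₁O, hw₁D⟩, hw₁T, hw₁n, T, hT, ⟨hTO, hTD⟩⟩ := hnw
  have hw₁ : w₁ ∈ UT S := ⟨hw₁T, hw₁n.trans hw₀.2⟩
  have hΦT : ContDiff ℝ ∞ (Φ T) := hΦc.comp (contDiff_const.prodMk contDiff_id)
  set D₁ : Set (E × E) := (O ∩ D) ∩ ((Φ T) ⁻¹' O ∩ {w | 0 < ⟪w.2, w₁.2⟫_ℝ}) with hD₁
  have hD₁o : IsOpen D₁ := (hO.inter hF.isOpen).inter ((hO.preimage hΦT.continuous).inter
    (isOpen_lt continuous_const (continuous_snd.inner continuous_const)))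
  have hw₁D₁ : w₁ ∈ D₁ := ⟨⟨hw₁O, hw₁D⟩, hTO, by
    show 0 < ⟪w₁.2, w₁.2⟫_ℝ
    rw [real_inner_self_eq_norm_sq, hw₁.2]; norm_num⟩
  -- the map
  have hΨ : ContDiffOn ℝ ∞ (fun w => Φ (s w) w) O :=
    hΦc.comp_contDiffOn (hs.prodMk contDiffOn_id)
  have hΨT : ContDiffOn ℝ ∞ (fun w => Φ (s (Φ T w)) (Φ T w)) D₁ :=
    hΨ.comp hΦT.contDiffOn fun w hw => hw.2.1
  set f : E × E → E × (E × ℝ) := fun w => ((Φ (s w) w).1, ((Φ (s (Φ T w)) (Φ T w)).1,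
    ⟪w.1, w₁.2⟫_ℝ)) with hf
  have hfs : ContDiffOn ℝ ∞ f D₁ := by
    refine (hΨ.mono fun w hw => hw.1.1).fst.prodMk (hΨT.fst.prodMk ?_)
    exact (contDiff_fst.inner ℝ contDiff_const).contDiffOn
  have hk : ∀ w ∈ UT S, w ∈ D₁ → ∃ k ∈ ZT (UT S) w, k ≠ 0 ∧ fderiv ℝ f w k = 0 := by
    intro w hw hwD
    obtain ⟨k, hkY, hk0, hkw⟩ := exists_ker (hF.two w hw hwD.1.2)
      (((innerSL ℝ w₁.2).toLinearMap) ∘ₗ (LinearMap.fst ℝ E E))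
    have hkw' : ⟪w₁.2, k.1⟫_ℝ = 0 := hkw
    refine ⟨k, hR.Y_le hw hkY, hk0, ?_⟩
    have e1 : HasFDerivAt (fun w => Φ (s w) w) (fderiv ℝ (fun w => Φ (s w) w) w) w :=
      hasFDerivAt_of_open hO hΨ hwD.1.1
    have e2 : HasFDerivAt (fun w => Φ (s w) w) (fderiv ℝ (fun w => Φ (s w) w) (Φ T w)) (Φ T w) :=
      hasFDerivAt_of_open hO hΨ hwD.2.1
    have e3 : HasFDerivAt (Φ T) (fderiv ℝ (Φ T) w) w := (hΦT.differentiable (by simp) w).hasFDerivAt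
    have e4 : HasFDerivAt (fun w => Φ (s (Φ T w)) (Φ T w)) _ w :=
      HasFDerivAt.comp w (g := fun w => Φ (s w) w) (f := Φ T) e2 e3
    have e5 : HasFDerivAt (fun w : E × E => ⟪w.1, w₁.2⟫_ℝ) _ w :=
      (hasFDerivAt_fst (𝕜 := ℝ) (E := E) (F := E) (p := w)).inner ℝ (hasFDerivAt_const w₁.2 w)
    have e6 := e1.fst.prodMk (e4.fst.prodMk e5)
    have e7 : fderiv ℝ f w = _ := e6.fderiv
    rw [e7]
    refine Prod.ext ?_ (Prod.ext ?_ ?_)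
    · exact hfoc w hw hwD.1.1 k hkY
    · exact hfoc (Φ T w) (flow_mem_UT h hw T) hwD.2.1 _ ((hR.flow_Y hw T).2 hkY)
    · rw [real_inner_comm] at hkw'
      simp [hkw']
  obtain ⟨w₂, hw₂, hw₂D, γ, k, hk0, hγ0, hγ, hγe⟩ :=
    exists_fiber_curve_UT h.sub hD₁o hw₁ hw₁D₁ hfs hk
  obtain ⟨σ, hσ⟩ := deriv_of_const h hsec hO hs hsb hT hw₂ hw₂D.1.1 hγ0 hγ (by
    filter_upwards [hγe] with τ hτ
    exact ⟨hτ.1, hτ.2.1.1.1, hτ.2.1.2.1, congrArg (fun x : E × (E × ℝ) => x.1) hτ.2.2,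
      congrArg (fun x : E × (E × ℝ) => x.2.1) hτ.2.2⟩)
  -- the third component
  have h1 : HasDerivAt (fun τ => ⟪(γ τ).1, w₁.2⟫_ℝ) (⟪k.1, w₁.2⟫_ℝ) 0 := by
    have e1 : HasDerivAt (fun τ => (γ τ).1) k.1 0 :=
      (ContinuousLinearMap.fst ℝ E E).hasFDerivAt.comp_hasDerivAt (0 : ℝ) hγ
    simpa using e1.inner ℝ (hasDerivAt_const (0 : ℝ) w₁.2)
  have h2 : (fun τ => ⟪(γ τ).1, w₁.2⟫_ℝ) =ᶠ[𝓝 0] fun _ => ⟪w₂.1, w₁.2⟫_ℝ := by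
    filter_upwards [hγe] with τ hτ
    exact congrArg (fun x : E × (E × ℝ) => x.2.2) hτ.2.2
  have h3 := h1.unique ((hasDerivAt_const (0 : ℝ) _).congr_of_eventuallyEq h2)
  have h4 : k.1 = σ • w₂.2 := by rw [hσ]; rfl
  rw [h4, inner_smul_left] at h3
  have h5 : 0 < ⟪w₂.2, w₁.2⟫_ℝ := hw₂D.2.2
  rcases mul_eq_zero.1 h3 with h6 | h6
  · have h7 : σ = 0 := by simpa using h6
    rw [h7, zero_smul] at hσ
    exact hk0 hσ
  · exact h5.ne' h6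

end Pool.Agent.H36.FO
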